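import Pool.Agent.MP908b95.PartA

set_option autoImplicit false

namespace Pool.Agent.Results.MP_908b95_an.NotSimilar

open Pool.Agent.MP908b95 in
open scoped ComplexConjugate in
theorem mapping {E a : ℂ} (ha : ‖a‖ < 1) {Γ Γ' : K →L[ℂ] K} (h1 : Γ * Γ' = 1)
    (hΓ : Rel E a Γ) :
    E • ((T - a • (1 : K →L[ℂ] K)) * Ring.inverse ((1 : K →L[ℂ] K) - (starRingEnd ℂ a) • T))
      = Γ * T * Γ' := by
  have hu := isUnit_one_sub_T ha
  have e1 : (1 - conj a • T) * (Γ * T * Γ') = E • (T - a • (1 : K →L[ℂ] K)) := by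
    calc (1 - conj a • T) * (Γ * T * Γ') = ((1 - conj a • T) * (Γ * T)) * Γ' := by
          simp only [mul_assoc]
      _ = (E • ((T - a • (1 : K →L[ℂ] K)) * Γ)) * Γ' := by rw [← hΓ]
      _ = E • ((T - a • (1 : K →L[ℂ] K)) * (Γ * Γ')) := by
          rw [smul_mul_assoc, mul_assoc]
      _ = _ := by rw [h1, mul_one]
  have hcomm : (1 - conj a • T) * (T - a • (1 : K →L[ℂ] K))
      = (T - a • (1 : K →L[ℂ] K)) * (1 - conj a • T) := by
    simp only [mul_sub, sub_mul, mul_one, one_mul, smul_mul_assoc, mul_smul_comm]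
    module
  apply hu.mul_left_cancel
  rw [e1, mul_smul_comm, ← mul_assoc, hcomm, mul_assoc, Ring.mul_inverse_cancel _ hu, mul_one]

open Pool.Agent.MP908b95 in
theorem spec : spectrum ℂ T ⊆ Metric.closedBall (0 : ℂ) 1 := by
  intro z hz
  rw [mem_closedBall_zero_iff]
  by_contra hlt
  rw [not_le] at hlt
  have hz0 : z ≠ 0 := by
    intro h
    rw [h, norm_zero] at hlt
    linarith
  have hzi : ‖z⁻¹‖ < 1 := by
    rw [norm_inv]
    exact inv_lt_one_of_one_lt₀ hlt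
  apply hz
  rw [spectrum.mem_resolventSet_iff]
  have h1 : IsUnit ((1 : K →L[ℂ] K) - z⁻¹ • T) := by
    have h2 : ‖star z⁻¹‖ < 1 := by rwa [norm_star]
    have h3 := isUnit_one_sub_T h2
    have h4 : (starRingEnd ℂ) (star z⁻¹) = z⁻¹ := star_star z⁻¹
    rwa [h4] at h3
  have h2 : (algebraMap ℂ (K →L[ℂ] K)) z - T = z • ((1 : K →L[ℂ] K) - z⁻¹ • T) := by
    rw [smul_sub, smul_smul, mul_inv_cancel₀ hz0, one_smul, Algebra.algebraMap_eq_smul_one]
  rw [h2]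
  exact (isUnit_smul_iff (Units.mk0 z hz0) _).2 h1

/-- the operator `φ(T)` for the automorphism `φ(z) = e^(iθ) (z - a) / (1 - conj a z)` of the disc -/
noncomputable def mob {H : Type} [NormedAddCommGroup H] [InnerProductSpace ℂ H] [CompleteSpace H]
    (θ : ℝ) (a : ℂ) (A : H →L[ℂ] H) : H →L[ℂ] H :=
  Complex.exp ((θ : ℂ) * Complex.I) •
    ((A - a • (1 : H →L[ℂ] H)) * Ring.inverse ((1 : H →L[ℂ] H) - (starRingEnd ℂ a) • A))

theorem sepL2 : TopologicalSpace.SeparableSpace (lp (fun _ : ℕ => ℂ) 2) := by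
  let b : HilbertBasis ℕ ℂ (lp (fun _ : ℕ => ℂ) 2) := HilbertBasis.ofRepr (LinearIsometryEquiv.refl ℂ _)
  have h1 : TopologicalSpace.IsSeparable (Set.range b) := (Set.countable_range b).isSeparable
  have h2 := h1.span (R := ℂ)
  have h3 := h2.closure
  rw [← TopologicalSpace.isSeparable_univ_iff]
  have h4 := b.dense_span
  have h5 : closure ((Submodule.span ℂ (Set.range b) : Submodule ℂ (lp (fun _ : ℕ => ℂ) 2)) :
      Set (lp (fun _ : ℕ => ℂ) 2)) = Set.univ := by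
    rw [← Submodule.topologicalClosure_coe, h4]
    rfl
  rw [h5] at h3
  exact h3

theorem sepK : TopologicalSpace.SeparableSpace Pool.Agent.MP908b95.K := by
  have := sepL2
  have h : Continuous (WithLp.prodContinuousLinearEquiv 2 ℂ (lp (fun _ : ℕ => ℂ) 2) (lp (fun _ : ℕ => ℂ) 2)).symm :=
    (WithLp.prodContinuousLinearEquiv 2 ℂ (lp (fun _ : ℕ => ℂ) 2) (lp (fun _ : ℕ => ℂ) 2)).symm.continuous
  exact (WithLp.prodContinuousLinearEquiv 2 ℂ (lp (fun _ : ℕ => ℂ) 2)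
    (lp (fun _ : ℕ => ℂ) 2)).symm.surjective.denseRange.separableSpace h

/-- `A` is weakly homogeneous with intertwiners `Γ(φ)` such that `‖Γ(φ)‖ ≤ C`, `‖Γ(φ)⁻¹‖ ≤ C`. -/
def WeaklyHomogeneous {H : Type} [NormedAddCommGroup H] [InnerProductSpace ℂ H] [CompleteSpace H]
    (C : ℝ) (A : H →L[ℂ] H) : Prop :=
  spectrum ℂ A ⊆ Metric.closedBall (0 : ℂ) 1 ∧ ∀ (θ : ℝ) (a : ℂ), ‖a‖ < 1 →
    ∃ Γ : (H →L[ℂ] H)ˣ, ‖Γ.val‖ ≤ C ∧ ‖Γ⁻¹.val‖ ≤ C ∧ mob θ a A = Γ.val * A * Γ⁻¹.val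

/-- `A` is homogeneous: its spectrum is in the closed disc and every `φ(A)` is unitarily
equivalent to `A`. -/
def Homogeneous {H : Type} [NormedAddCommGroup H] [InnerProductSpace ℂ H] [CompleteSpace H]
    (A : H →L[ℂ] H) : Prop :=
  spectrum ℂ A ⊆ Metric.closedBall (0 : ℂ) 1 ∧ ∀ (θ : ℝ) (a : ℂ), ‖a‖ < 1 →
    ∃ U ∈ unitary (H →L[ℂ] H), mob θ a A = U * A * star U

/-- There is a bounded operator `T` on a separable Hilbert space with spectrum in the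
closed unit disc such that all `φ(T)` are similar to `T` by intertwiners `Γ(φ)` with
`‖Γ(φ)‖ ≤ π + 4` and `‖Γ(φ)⁻¹‖ ≤ π + 4`, but `T` is not similar to a homogeneous operator. -/
theorem result :
    ∃ (H : Type) (_ : NormedAddCommGroup H) (_ : InnerProductSpace ℂ H) (_ : CompleteSpace H)
      (_ : TopologicalSpace.SeparableSpace H) (T : H →L[ℂ] H),
      WeaklyHomogeneous (Real.pi + 4) T ∧
      ∀ X : (H →L[ℂ] H)ˣ, ¬ Homogeneous (X.val * T * X⁻¹.val) := by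
  have hE : ∀ θ : ℝ, (starRingEnd ℂ) (Complex.exp ((θ : ℂ) * Complex.I)) *
      Complex.exp ((θ : ℂ) * Complex.I) = 1 := by
    intro θ
    rw [← Complex.exp_conj, ← Complex.exp_add]
    simp
  refine ⟨Pool.Agent.MP908b95.K, inferInstance, inferInstance, inferInstance, sepK,
    Pool.Agent.MP908b95.T, ⟨spec, ?_⟩, ?_⟩
  · intro θ a ha
    obtain ⟨R, R', Q, h1, h2, h3, h4, h5, h6⟩ := Pool.Agent.MP908b95.partA ha (hE θ)
    obtain ⟨g1, g2⟩ := Pool.Agent.MP908b95.blk_unit (B := Q) h1 h2 h1 h2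
    refine ⟨⟨_, _, g1, g2⟩, ?_, ?_, mapping ha g1 h6⟩
    · refine (Pool.Agent.MP908b95.norm_blk_le _ _ _).trans ?_
      linarith
    · refine (Pool.Agent.MP908b95.norm_blk_le _ _ _).trans ?_
      have h7 : ‖-(R' * Q * R')‖ ≤ 1 * (Real.pi + 2) * 1 := by
        rw [norm_neg]
        calc ‖R' * Q * R'‖ ≤ ‖R' * Q‖ * ‖R'‖ := norm_mul_le _ _
          _ ≤ (‖R'‖ * ‖Q‖) * ‖R'‖ := by gcongr; exact norm_mul_le _ _
          _ ≤ 1 * (Real.pi + 2) * 1 := by gcongr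
      linarith
  · rintro X ⟨-, hX⟩
    refine Pool.Agent.MP908b95.partB ?_ X hX
    intro θ a ha
    obtain ⟨R, R', Q, h1, h2, -, -, -, h6⟩ := Pool.Agent.MP908b95.partA ha (hE θ)
    exact ⟨R, R', Q, h1, h2, h6⟩

end Pool.Agent.Results.MP_908b95_an.NotSimilar
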